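import Pool.Agent.Helper13.PK.Desc
import Pool.Agent.Helper13.PK.Seq

/-!
# Unlikely intersections in abelian schemes and one sequence of planar moduli spaces

All schemes in question are of finite type over `ℚ` (a variety over a number field is an integral scheme of
finite type over `ℚ`). An abelian scheme of relative dimension `g` over a scheme `S` is a group object in the
category of the schemes over `S` which is proper and smooth of relative dimension `g` over `S` with
geometrically integral fibres (`IsAbelianScheme`).

Let `A` be an abelian scheme of relative dimension `g` over `S` and `b : Spec Ω ⟶ S` a point with coordinates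
in an algebraically closed field `Ω`. The group `A(b)` of the `Ω`-rational points of the fibre is the group
`Over.mk b ⟶ A`. A subgroup of `A(b)` is an algebraic subgroup if it is closed in the Zariski topology of
the fibre (`IsAlgebraic`); its dimension is the dimension of its closure in the fibre.

For a morphism `τ : X ⟶ A` let `atypical A g d τ` be the set of the points of `X` which are mapped by `τ` into
the union `A^[>d]` of the algebraic subgroups of codimension greater than `d` of the fibres at the
`ℚ̄`-points of `S`. The morphism `τ` is nondegenerate (`Nondegenerate`) if the geometric generic points of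
`X` are not mapped into strict algebraic subgroups of the geometric fibres of `A`.

**Pink's conjecture** for irreducible subvarieties of dimension `d` in abelian schemes of relative dimension `g`
(`Pink g d`): if `X ⊆ A` is an integral closed subscheme of dimension `d` and the inclusion is
nondegenerate, then `X ∩ A^[>d]` is not dense in `X`. (A strict algebraic subgroup which contains the
geometric generic point of `X` is given by a strict group subscheme of `A ×_S S'` for a generically finite
`S' ⟶ S`. The statement of the problem file only considers the group subschemes of `A` itself, and this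
statement is false for trivial reasons, see the twists in the library; the conjecture is about the
nondegenerate `X`.)

**The statement for sections** over a scheme `U` (`PinkSections g d U`): for all abelian schemes `A` of
relative dimension `g` over `U` and all nondegenerate sections `σ` of `A` over `U`, the set of the `u` in `U`
for which `σ(u)` is in an algebraic subgroup of codimension greater than `d` of the fibre is not dense.

A matroid `M` of rank three on the set `Fin 4 ⊕ Fin m` is **framed** if any three of the four elements of
`Fin 4` form a base; it is **simple** if any two elements are independent. Let `modS ℚ M = Spec (ModR ℚ M)`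
be the moduli space over `ℚ` of the configurations of `m + 4` different points in the projective plane in
which exactly the triples prescribed by `M` are collinear, modulo projective transformations: the four
points of `Fin 4` are the points of `e_1, e_2, e_3, e_1 + e_2 + e_3`, and the other ones have normalised
coordinates. `SmoothMod ℚ ⊤ M` says that `M` is simple and framed, and that `modS ℚ M` is integral and
smooth.

**Theorem.** For each `d` there is **one sequence** of simple framed matroids `M_0, M_1, M_2, …` of rank three
with smooth integral moduli spaces `U_i = modS ℚ M_i` of dimension `d` such that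

1. each integral separated scheme of finite type over `ℚ` of dimension `d` is dominated by `U_i` for all
   large `i`;
2. for all `g`, Pink's conjecture for all subvarieties of dimension `d` in all abelian schemes of relative
   dimension `g` over all bases `S` (of any dimension) is equivalent to the statement for sections over
   **infinitely many** of the spaces `U_i`.

The theorem is unconditional. Proof: the base change to `X` replaces `X` by a section over `X`; every integral
scheme of finite type over `ℚ` has a nonempty open subscheme which is isomorphic to some `modS ℚ M`
(`exists_open_mod`), two such schemes of dimension `d` are dominated by a third one, so that there is a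
cofinal sequence, and unlikely intersections can be lifted along dominant morphisms: for each nonempty open
`O ⊆ U` there is a nonempty open `O' ⊆ X` such that all the `ℚ̄`-points of `O'` lift to `O`
(`lift_scheme` of helper53).
-/

set_option autoImplicit false

open CategoryTheory MonoidalCategory CartesianMonoidalCategory MonObj Limits AlgebraicGeometry
  Pool.Agent.Y116.UV Pool.Agent.Q193.LT Pool.Agent.Helper13.RM Pool.Agent.Helper10.PC
  Pool.Agent.Helper53.UBT Pool.Agent.Helper13.PK

namespace Pool.Agent.Results.MP_28d749_ag.PlanarBases

/-- **Pink's conjecture** for integral closed subschemes `X` of dimension `d` of abelian schemes `A` of relative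
dimension `g` over integral separated schemes `S` of finite type over `ℚ`. -/
def Pink (g d : ℕ) : Prop :=
  ∀ (S : Scheme.{0}) (p : S ⟶ Spec (.of ℚ)) [IsIntegral S] [IsSeparated p] [LocallyOfFiniteType p]
    [QuasiCompact p] (A : Over S) [GrpObj A], IsAbelianScheme g A →
    ∀ (X : Scheme.{0}) [IsIntegral X] (j : X ⟶ A.left) [IsClosedImmersion j], dimV X = d →
      Nondegenerate A j → ¬ Dense (atypical A g d j)

/-- The statement for the sections of the abelian schemes of relative dimension `g` over `U`. -/
def PinkSections (g d : ℕ) (U : Scheme.{0}) : Prop :=
  ∀ (A : Over U) [GrpObj A], IsAbelianScheme g A → ∀ σ : Sec A, Nondegenerate A σ.left →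
    ¬ Dense (atypical A g d σ.left)

lemma charZero_sections {X : Scheme.{0}} [IsIntegral X] (q : X ⟶ Spec (.of ℚ)) (V : X.Opens)
    (hV : (V : Set X).Nonempty) : CharZero Γ(X, V) := by
  obtain ⟨x, hx⟩ := hV
  have hn : Nonempty V := ⟨⟨x, hx⟩⟩
  have h1 : Nontrivial Γ(X, V) := inferInstance
  let φ : ℚ →+* Γ(X, V) := ((X.presheaf.map (homOfLE (le_top : V ≤ ⊤)).op).hom).comp
    ((q.appTop).hom.comp (Scheme.ΓSpecIso (.of ℚ)).inv.hom)
  exact charZero_of_injective_ringHom φ.injective

/-- Pink's conjecture follows from the statement for sections over a scheme which dominates `X`. -/
lemma descend {g d : ℕ} {S : Scheme.{0}} (A : Over S) [GrpObj A] (hA : IsAbelianScheme g A)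
    {X U : Scheme.{0}} [IsIntegral X] [IsIntegral U] (q : X ⟶ Spec (.of ℚ)) (j : X ⟶ A.left)
    (f : U ⟶ X) [IsDominant f] [LocallyOfFiniteType f] (h : PinkSections g d U)
    (hn : Nondegenerate A j) : ¬ Dense (atypical A g d j) := fun hd =>
  h (bc (f ≫ j ≫ A.hom) A) (bc_abelian _ A hA) (sec f A j) hn.pull
    (dense_pull (charZero_sections q) hd)

/-- **Pink's conjecture and one sequence of planar moduli spaces.** See the explanations above. -/
theorem result (d : ℕ) : ∃ M : ℕ → Mat,
    (∀ i, SmoothMod ℚ ⊤ (M i).2 ∧ Algebra.trdeg ℚ (ModR ℚ (M i).2) = d) ∧
    (∀ X : Sch ℚ, FT True X → ∀ _ : IsIntegral X.left, dimV X.left = d →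
      ∃ i₀, ∀ i, i₀ ≤ i → Dominates (modS ℚ (M i).2) X) ∧
    ∀ g : ℕ, Pink g d ↔ {i | PinkSections g d (modS ℚ (M i).2).left}.Infinite := by
  obtain ⟨M, hM, hdo⟩ := exists_seq_dim (presents_frac frac_rat) d
  refine ⟨M, fun i => ⟨(hM i).1, ?_⟩, hdo, fun g => ⟨fun h => ?_, fun h => ?_⟩⟩
  · have := (hM i).1.domain
    rw [trdeg_rat]
    exact (hM i).2
  · have hall : ∀ i, PinkSections g d (modS ℚ (M i).2).left := by
      intro i A _ hA σ hn
      have hdm := (hM i).1.domain
      have hi : IsIntegral (modS ℚ (M i).2).left := (affine_isIntegral_iff _).mpr hdm
      have hi2 : IsIntegral (aff ℚ (ModR ℚ (M i).2)).left := hi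
      have hft : FT True (modS ℚ (M i).2) := ft_modT _
      have h1 := hft.locallyOfFiniteType
      have h2 := hft.quasiCompact
      have h3 := hft.separated trivial
      have h4 := hA.proper
      have h5 : σ.left ≫ A.hom = 𝟙 _ := Over.w σ
      have h6 : IsClosedImmersion (σ.left ≫ A.hom) := by
        rw [h5]
        infer_instance
      have h7 : IsClosedImmersion σ.left := IsClosedImmersion.of_comp σ.left A.hom
      have h8 : dimV (modS ℚ (M i).2).left = d := (dimV_aff (ModR ℚ (M i).2)).trans (hM i).2
      exact h (modS ℚ (M i).2).left (modS ℚ (M i).2).hom A hA (modS ℚ (M i).2).left σ.left h8 hn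
    rw [show {i | PinkSections g d (modS ℚ (M i).2).left} = Set.univ from
      Set.eq_univ_of_forall hall]
    exact Set.infinite_univ
  · intro S p _ _ _ _ A _ hA X _ j _ hX hn
    have h4 := hA.proper
    let Y : Sch ℚ := Over.mk (j ≫ A.hom ≫ p)
    have hY : FT True Y := by
      refine ⟨?_, ?_, fun _ => ?_⟩
      · change LocallyOfFiniteType (j ≫ A.hom ≫ p)
        infer_instance
      · change QuasiCompact (j ≫ A.hom ≫ p)
        infer_instance
      · change IsSeparated (j ≫ A.hom ≫ p)
        infer_instance
    obtain ⟨i₀, hi₀⟩ := hdo Y hY (inferInstanceAs (IsIntegral X)) hX
    obtain ⟨i, hi, hle⟩ := h.exists_gt i₀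
    obtain ⟨h1, h2, h3, f, hf⟩ := hi₀ i hle.le
    have hl : LocallyOfFiniteType (f.left ≫ Y.hom) := by
      rw [Over.w f]
      exact h1.locallyOfFiniteType
    have hl' : LocallyOfFiniteType f.left := locallyOfFiniteType_of_comp f.left Y.hom
    exact descend A hA (j ≫ A.hom ≫ p) j f.left hi hn

end Pool.Agent.Results.MP_28d749_ag.PlanarBases
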